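import Mathlib

/-!
Involutive non-degenerate set-theoretic solutions of the Yang-Baxter equation on a product `Y × Z`
whose fibres over the first coordinate are blocks of imprimitivity, and an example on
`ZMod p × ZMod p`.
-/

namespace Pool.Agent.Helper778.BlockSol

open Equiv

universe u v

/-- `r × id` on `X × X × X`. -/
def r12 {X : Type u} (r : X × X → X × X) (t : X × X × X) : X × X × X :=
  ((r (t.1, t.2.1)).1, (r (t.1, t.2.1)).2, t.2.2)

/-- `id × r` on `X × X × X`. -/
def r23 {X : Type u} (r : X × X → X × X) (t : X × X × X) : X × X × X :=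
  (t.1, r t.2)

/-- The map `r(x, y) = (σ_x(y), σ⁻¹_{σ_x(y)}(x))` of a family of permutations `σ`. -/
def rmap {X : Type u} (σ : X → Perm X) (q : X × X) : X × X :=
  (σ q.1 q.2, (σ (σ q.1 q.2)).symm q.1)

/-- `σ` is (the family of first components of) a solution: `rmap σ` satisfies the braid relation. -/
def IsSolution {X : Type u} (σ : X → Perm X) : Prop :=
  ∀ t : X × X × X, r12 (rmap σ) (r23 (rmap σ) (r12 (rmap σ) t)) =
    r23 (rmap σ) (r12 (rmap σ) (r23 (rmap σ) t))

/-- The permutation group of a solution. -/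
def permGroup {X : Type u} (σ : X → Perm X) : Subgroup (Perm X) :=
  Subgroup.closure (Set.range σ)

/-- The permutation group is transitive. -/
def Indecomposable {X : Type u} (σ : X → Perm X) : Prop :=
  ∀ x y : X, ∃ g ∈ permGroup σ, g x = y

/-- Different points have different permutations. -/
def Irretractable {X : Type u} (σ : X → Perm X) : Prop :=
  ∀ x y : X, x ≠ y → σ x ≠ σ y

/-- The sets `{y} × Z` are blocks of imprimitivity for the permutation group. -/
def HasBlocks {Y : Type u} {Z : Type v} (σ : Y × Z → Perm (Y × Z)) : Prop :=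
  ∀ g ∈ permGroup σ, ∀ y : Y, ∃ y' : Y, g '' {q | q.1 = y} = {q | q.1 = y'}

/-- `β` and `α` are the permutations of the block setting. -/
def BlockForm {Y : Type u} {Z : Type v} (σ : Y × Z → Perm (Y × Z)) (β : Y → Z → Perm Y)
    (α : Y → Z → Y → Perm Z) : Prop :=
  ∀ y z y' z', σ (y, z) (y', z') = (β y z y', α y z y' z')

/-- The equivalence of Q2. -/
def Equivalence {Y : Type u} {Z : Type v} (β : Y → Z → Perm Y) (α : Y → Z → Y → Perm Z) : Prop :=
  ∀ y y' y'' z z', α y z y' = α y z' y'' ↔ β y z y' = β y z' y''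

/-- New coordinates on `Y × Z`, compatible with the blocks: `(y, z) ↦ (ρ y, π_y z)`. -/
def coord {Y : Type u} {Z : Type v} (ρ : Perm Y) (π : Y → Perm Z) : Perm (Y × Z) where
  toFun q := (ρ q.1, π q.1 q.2)
  invFun q := (ρ.symm q.1, (π (ρ.symm q.1)).symm q.2)
  left_inv := by rintro ⟨y, z⟩; simp
  right_inv := by rintro ⟨y, z⟩; simp

/-- The solution `σ` in other coordinates: `x ↦ e σ_{e⁻¹ x} e⁻¹`. -/
def transport {X : Type u} (e : Perm X) (σ : X → Perm X) (x : X) : Perm X :=
  e * σ (e.symm x) * e⁻¹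

/-! ### The example -/

/-- `σ_{(i,j)}(k,l) = (k + j, l - (k + j - i)²)`. -/
def sig (p : ℕ) (x : ZMod p × ZMod p) : Perm (ZMod p × ZMod p) where
  toFun q := (q.1 + x.2, q.2 - (q.1 + x.2 - x.1) ^ 2)
  invFun q := (q.1 - x.2, q.2 + (q.1 - x.1) ^ 2)
  left_inv := by rintro ⟨k, l⟩; simp
  right_inv := by rintro ⟨k, l⟩; simp

theorem sig_apply (p : ℕ) (x q : ZMod p × ZMod p) :
    sig p x q = (q.1 + x.2, q.2 - (q.1 + x.2 - x.1) ^ 2) := rfl

theorem sig_symm_apply (p : ℕ) (x q : ZMod p × ZMod p) :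
    (sig p x).symm q = (q.1 - x.2, q.2 + (q.1 - x.1) ^ 2) := rfl

theorem rmap_sig (p : ℕ) (x y : ZMod p × ZMod p) :
    rmap (sig p) (x, y) = ((y.1 + x.2, y.2 - (y.1 + x.2 - x.1) ^ 2),
      (x.1 - (y.2 - (y.1 + x.2 - x.1) ^ 2), x.2 + (x.1 - (y.1 + x.2)) ^ 2)) := rfl

theorem isSolution (p : ℕ) : IsSolution (sig p) := by
  rintro ⟨⟨a, b⟩, ⟨c, d⟩, ⟨e, f⟩⟩
  simp only [r12, r23, rmap_sig, Prod.mk.injEq]
  refine ⟨⟨?_, ?_⟩, ⟨?_, ?_⟩, ⟨?_, ?_⟩⟩ <;> ring

theorem shift (p : ℕ) (g : Perm (ZMod p × ZMod p)) (hg : g ∈ permGroup (sig p)) :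
    ∃ c : ZMod p, ∀ q : ZMod p × ZMod p, (g q).1 = q.1 + c := by
  unfold permGroup at hg
  induction hg using Subgroup.closure_induction with
  | mem x hx =>
    obtain ⟨y, rfl⟩ := hx
    exact ⟨y.2, fun q => rfl⟩
  | one => exact ⟨0, fun q => by simp⟩
  | mul x y _ _ hx hy =>
    obtain ⟨c, hc⟩ := hx
    obtain ⟨d, hd⟩ := hy
    refine ⟨d + c, fun q => ?_⟩
    rw [Perm.mul_apply, hc, hd, add_assoc]
  | inv x _ hx =>
    obtain ⟨c, hc⟩ := hx
    refine ⟨-c, fun q => ?_⟩
    have h := hc (x⁻¹ q)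
    have h0 : x (x⁻¹ q) = q := x.apply_symm_apply q
    rw [h0] at h
    rw [h]
    ring

theorem hasBlocks (p : ℕ) : HasBlocks (sig p) := by
  intro g hg y
  obtain ⟨c, hc⟩ := shift p g hg
  refine ⟨y + c, ?_⟩
  ext q
  simp only [Set.mem_image, Set.mem_ofPred_eq]
  constructor
  · rintro ⟨a, ha, rfl⟩
    rw [hc, ha]
  · intro hq
    refine ⟨g⁻¹ q, ?_, by simp⟩
    have h := hc (g⁻¹ q)
    have h0 : g (g⁻¹ q) = q := g.apply_symm_apply q
    rw [h0, hq] at h
    exact (add_right_cancel h).symm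

theorem sig_zero_pow (p : ℕ) (k : ZMod p) (m : ℕ) (l : ZMod p) :
    ((sig p (k - 1, 0)) ^ m) (k, l) = (k, l - m) := by
  induction m with
  | zero => simp
  | succ m ih =>
    rw [pow_succ', Perm.mul_apply, ih, sig_apply]
    simp only [Prod.mk.injEq, add_zero, true_and, Nat.cast_add, Nat.cast_one]
    ring

theorem indecomposable (p : ℕ) [NeZero p] : Indecomposable (sig p) := by
  rintro ⟨a, b⟩ ⟨c, d⟩
  refine ⟨(sig p (c - 1, 0)) ^ (b - d).val * sig p (c, c - a), ?_, ?_⟩
  · exact mul_mem (pow_mem (Subgroup.subset_closure (Set.mem_range_self _)) _)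
      (Subgroup.subset_closure (Set.mem_range_self _))
  · have h : sig p (c, c - a) (a, b) = (c, b) := by
      rw [sig_apply]
      simp
    rw [Perm.mul_apply, h, sig_zero_pow]
    simp

theorem irretractable {p : ℕ} [Fact p.Prime] : Irretractable (sig p) := by
  rintro ⟨i, j⟩ ⟨i', j'⟩ hne h
  apply hne
  have h1 := congrArg (fun e : Perm (ZMod p × ZMod p) => e (i - j, 0)) h
  simp only [sig_apply, Prod.mk.injEq, sub_add_cancel, sub_self] at h1
  obtain ⟨h1, h2⟩ := h1
  have hj : j = j' := by linear_combination h1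
  subst hj
  have h3 : (i - i') ^ 2 = 0 := by
    rw [sub_add_cancel] at h2
    linear_combination h2
  have h4 : i - i' = 0 := by simpa using h3
  rw [sub_eq_zero.mp h4]

/-- `β` of the example in the coordinates `ρ`, `π`. -/
def be {p : ℕ} (ρ : Perm (ZMod p)) (π : ZMod p → Perm (ZMod p)) (y z : ZMod p) :
    Perm (ZMod p) :=
  ρ * Equiv.addRight ((π (ρ.symm y)).symm z) * ρ⁻¹

/-- `α` of the example in the coordinates `ρ`, `π`. -/
def al {p : ℕ} (ρ : Perm (ZMod p)) (π : ZMod p → Perm (ZMod p)) (y z y' : ZMod p) :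
    Perm (ZMod p) :=
  π (ρ.symm y' + (π (ρ.symm y)).symm z) *
    Equiv.addRight (-(ρ.symm y' + (π (ρ.symm y)).symm z - ρ.symm y) ^ 2) * (π (ρ.symm y'))⁻¹

theorem blockForm {p : ℕ} (ρ : Perm (ZMod p)) (π : ZMod p → Perm (ZMod p)) :
    BlockForm (transport (coord ρ π) (sig p)) (be ρ π) (al ρ π) := by
  intro y z y' z'
  simp [transport, coord, be, al, sig, Perm.mul_apply, Perm.inv_def, sub_eq_add_neg]

theorem not_equivalence {p : ℕ} (hp : 3 ≤ p) (ρ : Perm (ZMod p))
    (π : ZMod p → Perm (ZMod p)) : ¬ Equivalence (be ρ π) (al ρ π) := by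
  intro h
  have step : ∀ a : ZMod p, π a = π 0 := by
    intro a
    have h1 := (h (ρ 0) (ρ a) (ρ 0) (π 0 (-a)) (π 0 0)).mpr (by simp [be, Perm.inv_def])
    simp only [al, symm_apply_apply, add_neg_cancel, add_zero, sub_zero] at h1
    have h2 := mul_left_cancel h1
    exact inv_injective h2
  have h2 := (h (ρ 0) (ρ 0) (ρ 0) (π 0 1) (π 0 (-1))).mp (by
    simp [al, step 1, step (-1)])
  simp only [be, symm_apply_apply, Perm.mul_apply, Perm.inv_def, coe_addRight, zero_add] at h2
  have h3 : (1 : ZMod p) = -1 := ρ.injective h2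
  have h4 : ((2 : ℕ) : ZMod p) = 0 := by
    push_cast
    linear_combination h3
  rw [ZMod.natCast_eq_zero_iff] at h4
  have := Nat.le_of_dvd (by norm_num) h4
  omega

theorem rmap_transport {X : Type u} (e : Perm X) (σ : X → Perm X) (x y : X) :
    rmap (transport e σ) (e x, e y) = (e (rmap σ (x, y)).1, e (rmap σ (x, y)).2) := by
  have h1 : transport e σ (e x) (e y) = e (σ x y) := by
    simp [transport, Perm.mul_apply, Perm.inv_def]
  have h2 : (transport e σ (e (σ x y))).symm (e x) = e ((σ (σ x y)).symm x) := by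
    rw [Equiv.symm_apply_eq]
    simp [transport, Perm.mul_apply, Perm.inv_def]
  simp only [rmap]
  rw [h1, h2]

theorem isSolution_transport {X : Type u} {σ : X → Perm X} (h : IsSolution σ) (e : Perm X) :
    IsSolution (transport e σ) := by
  intro t
  obtain ⟨a, b, c⟩ := t
  obtain ⟨x, rfl⟩ := e.surjective a
  obtain ⟨y, rfl⟩ := e.surjective b
  obtain ⟨z, rfl⟩ := e.surjective c
  have h0 := h (x, y, z)
  have h12 : ∀ q : X × X × X, r12 (rmap (transport e σ)) (e q.1, e q.2.1, e q.2.2) =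
      (e (r12 (rmap σ) q).1, e (r12 (rmap σ) q).2.1, e (r12 (rmap σ) q).2.2) := by
    rintro ⟨q1, q2, q3⟩
    simp [r12, rmap_transport]
  have h23 : ∀ q : X × X × X, r23 (rmap (transport e σ)) (e q.1, e q.2.1, e q.2.2) =
      (e (r23 (rmap σ) q).1, e (r23 (rmap σ) q).2.1, e (r23 (rmap σ) q).2.2) := by
    rintro ⟨q1, q2, q3⟩
    simp [r23, rmap_transport]
  have k1 := h12 (x, y, z)
  have k2 := h23 (x, y, z)
  simp only at k1 k2
  rw [k1, k2, h23, h12, h12, h23, h0]

theorem mem_transport {X : Type u} {σ : X → Perm X} (e : Perm X) {g : Perm X}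
    (hg : g ∈ permGroup σ) : e * g * e⁻¹ ∈ permGroup (transport e σ) := by
  unfold permGroup at hg
  induction hg using Subgroup.closure_induction with
  | mem x hx =>
    obtain ⟨y, rfl⟩ := hx
    refine Subgroup.subset_closure ⟨e y, ?_⟩
    simp [transport]
  | one => simp
  | mul x y _ _ hx hy =>
    have := mul_mem hx hy
    have h2 : e * x * e⁻¹ * (e * y * e⁻¹) = e * (x * y) * e⁻¹ := by group
    rwa [h2] at this
  | inv x _ hx =>
    have := inv_mem hx
    have h2 : (e * x * e⁻¹)⁻¹ = e * x⁻¹ * e⁻¹ := by group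
    rwa [h2] at this

theorem of_mem_transport {X : Type u} {σ : X → Perm X} (e : Perm X) {g : Perm X}
    (hg : g ∈ permGroup (transport e σ)) : e⁻¹ * g * e ∈ permGroup σ := by
  unfold permGroup at hg
  induction hg using Subgroup.closure_induction with
  | mem x hx =>
    obtain ⟨y, rfl⟩ := hx
    refine Subgroup.subset_closure ⟨e.symm y, ?_⟩
    simp only [transport]
    group
  | one => simp
  | mul x y _ _ hx hy =>
    have := mul_mem hx hy
    have h2 : e⁻¹ * x * e * (e⁻¹ * y * e) = e⁻¹ * (x * y) * e := by group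
    rwa [h2] at this
  | inv x _ hx =>
    have := inv_mem hx
    have h2 : (e⁻¹ * x * e)⁻¹ = e⁻¹ * x⁻¹ * e := by group
    rwa [h2] at this

theorem indecomposable_transport {X : Type u} {σ : X → Perm X} (h : Indecomposable σ)
    (e : Perm X) : Indecomposable (transport e σ) := by
  intro x y
  obtain ⟨g, hg, hxy⟩ := h (e.symm x) (e.symm y)
  refine ⟨e * g * e⁻¹, mem_transport e hg, ?_⟩
  simp [Perm.mul_apply, Perm.inv_def, hxy]

theorem irretractable_transport {X : Type u} {σ : X → Perm X} (h : Irretractable σ)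
    (e : Perm X) : Irretractable (transport e σ) := by
  intro x y hne heq
  refine h (e.symm x) (e.symm y) (fun h1 => hne (e.symm.injective h1)) ?_
  simp only [transport] at heq
  exact mul_left_cancel (mul_right_cancel heq)

theorem hasBlocks_transport {Y : Type u} {Z : Type v} {σ : Y × Z → Perm (Y × Z)}
    (h : HasBlocks σ) (ρ : Perm Y) (π : Y → Perm Z) : HasBlocks (transport (coord ρ π) σ) := by
  intro g hg y
  have hg' := of_mem_transport (coord ρ π) hg
  obtain ⟨y', hy'⟩ := h _ hg' (ρ.symm y)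
  have hfst : ∀ q, ((coord ρ π) q).1 = ρ q.1 := fun q => rfl
  have hfst' : ∀ q, ((coord ρ π).symm q).1 = ρ.symm q.1 := fun q => rfl
  refine ⟨ρ y', ?_⟩
  ext q
  have hmem := Set.ext_iff.mp hy' ((coord ρ π).symm q)
  simp only [Set.mem_image, Set.mem_ofPred_eq, hfst'] at hmem ⊢
  constructor
  · rintro ⟨a, ha, rfl⟩
    have := hmem.mp ⟨(coord ρ π).symm a, by rw [hfst', ha], by
      simp [Perm.mul_apply, Perm.inv_def]⟩
    rw [← this]
    simp
  · intro hq
    obtain ⟨a, ha, hb⟩ := hmem.mpr (by rw [hq]; simp)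
    refine ⟨coord ρ π a, by rw [hfst, ha]; simp, ?_⟩
    have h1 : (coord ρ π).symm (g (coord ρ π a)) = (coord ρ π).symm q := by
      rw [← hb]
      simp [Perm.mul_apply, Perm.inv_def]
    exact (coord ρ π).symm.injective h1

end Pool.Agent.Helper778.BlockSol
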